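import Pool.Agent.H487.GP.Stm
import Pool.Agent.H477.Jen.XiInst

/-!
# Project GP (helper487), task LOCP
-/

set_option autoImplicit false

open Finset Complex Filter Topology Metric Set MeasureTheory

namespace Pool.Agent.H876.GP

open Pool.Agent.Helper242.KK (FT Ph)
open Pool.Agent.H477.Jen
open Pool.Agent.H477.E
open Pool.Agent.H487.GA
open Pool.Agent.H487.GP

noncomputable section

/-- integration of the logarithmic derivative along a horizontal line -/
theorem line {f : ℂ → ℂ} (hf : Differentiable ℂ f) {a b r : ℝ}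
    (h0 : ∀ s : ℝ, a ≤ s → s ≤ b → f ((s : ℂ) - I * r) ≠ 0) {x y : ℝ} (hx : x ∈ Icc a b)
    (hy : y ∈ Icc a b) :
    f ((y : ℂ) - I * r) = f ((x : ℂ) - I * r) *
      cexp (∫ s in x..y, deriv f ((s : ℂ) - I * r) / f ((s : ℂ) - I * r)) := by
  have hF : ∀ s : ℝ, HasDerivAt (fun s : ℝ => f ((s : ℂ) - I * r)) (deriv f ((s : ℂ) - I * r)) s := by
    intro s
    have h1 : HasDerivAt (fun s : ℝ => (s : ℂ) - I * r) 1 s :=
      (Complex.ofRealCLM.hasDerivAt (x := s)).sub_const _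
    have h2 := (hf ((s : ℂ) - I * r)).hasDerivAt.comp_of_eq s h1 rfl
    rw [mul_one] at h2
    exact h2
  have hcd : Continuous fun s : ℝ => deriv f ((s : ℂ) - I * r) :=
    (hf.contDiff (n := 1)).continuous_deriv_one.comp (by fun_prop)
  have hcf : Continuous fun s : ℝ => f ((s : ℂ) - I * r) := hf.continuous.comp (by fun_prop)
  have hg : ContinuousOn (fun s : ℝ => deriv f ((s : ℂ) - I * r) / f ((s : ℂ) - I * r)) (Icc a b) :=
    hcd.continuousOn.div hcf.continuousOn fun s hs => h0 s hs.1 hs.2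
  set g : ℝ → ℂ := fun s : ℝ => deriv f ((s : ℂ) - I * r) / f ((s : ℂ) - I * r) with hgdef
  have hsub : uIcc x y ⊆ Icc a b := by
    intro s hs
    have h1 := hx.1
    have h2 := hx.2
    have h3 := hy.1
    have h4 := hy.2
    rcases le_total x y with h | h
    · rw [uIcc_of_le h] at hs
      exact ⟨h1.trans hs.1, hs.2.trans h4⟩
    · rw [uIcc_of_ge h] at hs
      exact ⟨h3.trans hs.1, hs.2.trans h2⟩
  -- the function with derivative zero
  have hI : ∀ s ∈ uIcc x y, HasDerivWithinAt (fun s : ℝ => ∫ w in x..s, g w) (g s) (uIcc x y) s := by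
    intro s hs
    have h1 : IntervalIntegrable g volume x s :=
      (hg.mono ((uIcc_subset_uIcc_left hs).trans hsub)).intervalIntegrable
    have h2 : ContinuousWithinAt g (uIcc x y) s := (hg.mono hsub) s hs
    have : Fact (s ∈ uIcc x y) := ⟨hs⟩
    have h3 : StronglyMeasurableAtFilter g (𝓝[uIcc x y] s) :=
      (hg.mono hsub).stronglyMeasurableAtFilter_nhdsWithin measurableSet_uIcc s
    exact intervalIntegral.integral_hasDerivWithinAt_right h1 h3 h2
  have hD : ∀ s ∈ uIcc x y, HasDerivWithinAt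
      (fun s : ℝ => f ((s : ℂ) - I * r) * cexp (-(∫ w in x..s, g w))) 0 (uIcc x y) s := by
    intro s hs
    have h1 := (hF s).hasDerivWithinAt (s := uIcc x y)
    have h2 : HasDerivWithinAt (fun s : ℝ => cexp (-(∫ w in x..s, g w)))
        (cexp (-(∫ w in x..s, g w)) * -g s) (uIcc x y) s := (hI s hs).neg.cexp
    have h4 : f ((s : ℂ) - I * r) ≠ 0 := h0 s (hsub hs).1 (hsub hs).2
    have h5 : deriv f ((s : ℂ) - I * r) = f ((s : ℂ) - I * r) * g s := by
      rw [hgdef]
      field_simp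
    refine (h1.mul h2).congr_deriv ?_
    rw [h5]
    ring
  have hconst := Convex.norm_image_sub_le_of_norm_hasDerivWithin_le (C := 0) hD
    (fun s _ => by rw [norm_zero]) (convex_uIcc x y) left_mem_uIcc right_mem_uIcc
  rw [zero_mul] at hconst
  have h6 := sub_eq_zero.1 (norm_le_zero_iff.1 hconst)
  simp only [intervalIntegral.integral_same, neg_zero, Complex.exp_zero, mul_one] at h6
  rw [← h6, mul_assoc, ← Complex.exp_add, neg_add_cancel, Complex.exp_zero, mul_one]

/-- the statistic of the positions -/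
theorem core {f : ℂ → ℂ} (hf : Differentiable ℂ f) {v ε r lam t x y X : ℝ} {W : ℂ}
    (hE : ∀ (ε : ℝ) (A B P : ℂ), 0 ≤ ε → ε ≤ 1 / 10 → A ≠ 0 → B = A * cexp P → |A.re| ≤ ε * ‖A‖ →
      |B.re| ≤ ε * ‖B‖ → ∃ j : ℤ, |P.im - Real.pi * j| ≤ 4 * ε)
    (hv : 0 < v) (hε : 0 < ε) (hε1 : ε ≤ 1 / 100) (hW : ‖W‖ = 1) (hr : 0 < r) (hlam : 0 < lam)
    (hlr : 15 / lam ≤ r)
    (free : ∀ s : ℝ, t - r ≤ s → s ≤ t + v * r + r → f ((s : ℂ) - I * r) ≠ 0)
    (log : ∀ x : ℝ, (|x - t| ≤ 15 / lam ∨ |x - (t + v * r)| ≤ 15 / lam) →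
      ‖deriv f ((x : ℂ) - I * r) / f ((x : ℂ) - I * r) - I * (lam : ℂ)‖ ≤ ε * lam)
    (hX : X = ∫ w in (0 : ℝ)..(v * r),
      ((deriv f (((t + w : ℝ) : ℂ) - I * r) / f (((t + w : ℝ) : ℂ) - I * r)).im - lam))
    (hx : |x - t| ≤ 15 / lam) (hxz : |(W * f ((x : ℂ) - I * r)).re| ≤ ε * ‖f ((x : ℂ) - I * r)‖)
    (hy : |y - (t + v * r)| ≤ 15 / lam)
    (hyz : |(W * f ((y : ℂ) - I * r)).re| ≤ ε * ‖f ((y : ℂ) - I * r)‖) :
    ∃ j : ℤ, |(y - x) * lam / Real.pi - (j - X / Real.pi)| ≤ 12 * ε := by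
  have hvr : 0 < v * r := mul_pos hv hr
  have hx' := abs_le.1 hx
  have hy' := abs_le.1 hy
  have hxI : x ∈ Icc (t - r) (t + v * r + r) := ⟨by linarith, by linarith⟩
  have hyI : y ∈ Icc (t - r) (t + v * r + r) := ⟨by linarith, by linarith⟩
  have htI : t ∈ Icc (t - r) (t + v * r + r) := ⟨by linarith, by linarith⟩
  have htI' : t + v * r ∈ Icc (t - r) (t + v * r + r) := ⟨by linarith, by linarith⟩
  have h1 := line hf (a := t - r) (b := t + v * r + r) free hxI hyI
  set g : ℝ → ℂ := fun s : ℝ => deriv f ((s : ℂ) - I * r) / f ((s : ℂ) - I * r) with hgdef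
  have hcd : Continuous fun s : ℝ => deriv f ((s : ℂ) - I * r) :=
    (hf.contDiff (n := 1)).continuous_deriv_one.comp (by fun_prop)
  have hcf : Continuous fun s : ℝ => f ((s : ℂ) - I * r) := hf.continuous.comp (by fun_prop)
  have hg : ContinuousOn g (Icc (t - r) (t + v * r + r)) :=
    hcd.continuousOn.div hcf.continuousOn fun s hs => free s hs.1 hs.2
  have hgi : ∀ {a b : ℝ}, a ∈ Icc (t - r) (t + v * r + r) → b ∈ Icc (t - r) (t + v * r + r) →
      IntervalIntegrable g volume a b := by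
    intro a b ha hb
    exact (hg.mono (ordConnected_Icc.uIcc_subset ha hb)).intervalIntegrable
  have hui : ∀ {a b : ℝ}, a ∈ Icc (t - r) (t + v * r + r) → b ∈ Icc (t - r) (t + v * r + r) →
      IntervalIntegrable (fun s => (g s).im - lam) volume a b := by
    intro a b ha hb
    have h2 : ContinuousOn (fun s => (g s).im - lam) (Icc (t - r) (t + v * r + r)) :=
      (Complex.continuous_im.comp_continuousOn hg).sub continuousOn_const
    exact (h2.mono (ordConnected_Icc.uIcc_subset ha hb)).intervalIntegrable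
  obtain ⟨j, hj⟩ := hE ε (W * f ((x : ℂ) - I * r)) (W * f ((y : ℂ) - I * r)) (∫ s in x..y, g s)
    hε.le (by linarith) (mul_ne_zero (by
      intro h
      rw [h, norm_zero] at hW
      exact zero_ne_one hW) (free x hxI.1 hxI.2)) (by rw [h1, mul_assoc])
    (by rw [norm_mul, hW, one_mul]; exact hxz) (by rw [norm_mul, hW, one_mul]; exact hyz)
  refine ⟨j, ?_⟩
  -- the imaginary part
  have h2 : (∫ s in x..y, g s).im = ∫ s in x..y, (g s).im := by
    have h3 := (Complex.imCLM).intervalIntegral_comp_comm (hgi hxI hyI)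
    exact h3.symm
  have h3 : ∫ s in x..y, (g s).im = lam * (y - x) + ∫ s in x..y, ((g s).im - lam) := by
    have h4 : ∫ s in x..y, ((g s).im - lam) = (∫ s in x..y, (g s).im) - ∫ s in x..y, lam := by
      refine intervalIntegral.integral_sub ?_ intervalIntegrable_const
      exact ((Complex.continuous_im.comp_continuousOn hg).mono
        (ordConnected_Icc.uIcc_subset hxI hyI)).intervalIntegrable
    rw [h4, intervalIntegral.integral_const, smul_eq_mul]
    ring
  have h4 : ∫ s in x..y, ((g s).im - lam) = (∫ s in x..t, ((g s).im - lam)) +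
      X + ∫ s in (t + v * r)..y, ((g s).im - lam) := by
    have h5 : X = ∫ s in t..(t + v * r), ((g s).im - lam) := by
      rw [hX]
      have h6 := intervalIntegral.integral_comp_add_left (a := 0) (b := v * r)
        (fun s : ℝ => (g s).im - lam) t
      rw [add_zero] at h6
      exact h6
    rw [h5, intervalIntegral.integral_add_adjacent_intervals (hui hxI htI) (hui htI htI'),
      intervalIntegral.integral_add_adjacent_intervals (hui hxI htI') (hui htI' hyI)]
  have hsm : ∀ s : ℝ, (|s - t| ≤ 15 / lam ∨ |s - (t + v * r)| ≤ 15 / lam) →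
      ‖(g s).im - lam‖ ≤ ε * lam := by
    intro s hs
    have h5 := log s hs
    have h6 : (g s).im - lam = (g s - I * (lam : ℂ)).im := by
      simp
    rw [h6, Real.norm_eq_abs]
    exact (Complex.abs_im_le_norm _).trans h5
  have h5 : ‖∫ s in x..t, ((g s).im - lam)‖ ≤ ε * lam * |t - x| := by
    refine intervalIntegral.norm_integral_le_of_norm_le_const fun s hs => hsm s (Or.inl ?_)
    have hs' := uIoc_subset_uIcc hs
    rw [Set.mem_uIcc] at hs'
    rw [abs_le]
    rcases hs' with h | h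
    · constructor <;> linarith [h.1, h.2]
    · constructor <;> linarith [h.1, h.2]
  have h6 : ‖∫ s in (t + v * r)..y, ((g s).im - lam)‖ ≤ ε * lam * |y - (t + v * r)| := by
    refine intervalIntegral.norm_integral_le_of_norm_le_const fun s hs => hsm s (Or.inr ?_)
    have hs' := uIoc_subset_uIcc hs
    rw [Set.mem_uIcc] at hs'
    rw [abs_le]
    rcases hs' with h | h
    · constructor <;> linarith [h.1, h.2]
    · constructor <;> linarith [h.1, h.2]
  have h7 : ε * lam * |t - x| ≤ 15 * ε := by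
    rw [abs_sub_comm]
    calc ε * lam * |x - t| ≤ ε * lam * (15 / lam) := by gcongr
      _ = 15 * ε := by field_simp
  have h8 : ε * lam * |y - (t + v * r)| ≤ 15 * ε := by
    calc ε * lam * |y - (t + v * r)| ≤ ε * lam * (15 / lam) := by gcongr
      _ = 15 * ε := by field_simp
  rw [Real.norm_eq_abs] at h5 h6
  have h9 := abs_le.1 (h5.trans h7)
  have h10 := abs_le.1 (h6.trans h8)
  rw [h2, h3, h4] at hj
  have h11 := abs_le.1 hj
  have hpi : 3 < Real.pi := Real.pi_gt_three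
  have h12 : (y - x) * lam / Real.pi - (j - X / Real.pi) =
      (lam * (y - x) + X - Real.pi * j) / Real.pi := by
    field_simp
    ring
  have hpos : 0 < Real.pi := Real.pi_pos
  rw [h12, abs_div, abs_of_pos hpos, div_le_iff₀ hpos, abs_le]
  have h13 : 34 * ε ≤ 12 * ε * Real.pi := by nlinarith
  constructor
  · linarith
  · linarith

/-- the full local statement for an abstract set of zeros -/
theorem loc {f : ℂ → ℂ} (hf : Differentiable ℂ f) {v ε r lam t x X : ℝ} {W : ℂ} {Z : ℝ → Prop}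
    (hE : ∀ (ε : ℝ) (A B P : ℂ), 0 ≤ ε → ε ≤ 1 / 10 → A ≠ 0 → B = A * cexp P → |A.re| ≤ ε * ‖A‖ →
      |B.re| ≤ ε * ‖B‖ → ∃ j : ℤ, |P.im - Real.pi * j| ≤ 4 * ε)
    (hv : 0 < v) (hε : 0 < ε) (hε1 : ε ≤ 1 / 100) (hW : ‖W‖ = 1) (hr : 0 < r) (hlam : 0 < lam)
    (hlr : 15 / lam ≤ r)
    (free : ∀ s : ℝ, t - r ≤ s → s ≤ t + v * r + r → f ((s : ℂ) - I * r) ≠ 0)
    (log : ∀ x : ℝ, (|x - t| ≤ 15 / lam ∨ |x - (t + v * r)| ≤ 15 / lam) →
      ‖deriv f ((x : ℂ) - I * r) / f ((x : ℂ) - I * r) - I * (lam : ℂ)‖ ≤ ε * lam)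
    (zero : ∀ x : ℝ, (|x - t| ≤ 15 / lam ∨ |x - (t + v * r)| ≤ 15 / lam) → Z x →
      |(W * f ((x : ℂ) - I * r)).re| ≤ ε * ‖f ((x : ℂ) - I * r)‖)
    (ex : ∀ p : ℝ, |p - (t + v * r)| ≤ 10 / lam → ∃ y : ℝ, p - (1 + ε) * (Real.pi / lam) ≤ y ∧
      y ≤ p ∧ Z y)
    (hX : X = ∫ w in (0 : ℝ)..(v * r),
      ((deriv f (((t + w : ℝ) : ℂ) - I * r) / f (((t + w : ℝ) : ℂ) - I * r)).im - lam))
    (hx : |x - t| ≤ 15 / lam) (hxz : Z x) :
    (∀ y : ℝ, |y - (t + v * r)| ≤ 15 / lam → Z y →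
      ∃ j : ℤ, |(y - x) * lam / Real.pi - (j - X / Real.pi)| ≤ 12 * ε) ∧
    (∀ j0 : ℤ, |x + (j0 - X / Real.pi) * (Real.pi / lam) - (t + v * r)| ≤ 8 / lam →
      ∃ y : ℝ, |y - (t + v * r)| ≤ 15 / lam ∧ Z y ∧
        |(y - x) * lam / Real.pi - (j0 - X / Real.pi)| ≤ 12 * ε) := by
  have key : ∀ y : ℝ, |y - (t + v * r)| ≤ 15 / lam → Z y →
      ∃ j : ℤ, |(y - x) * lam / Real.pi - (j - X / Real.pi)| ≤ 12 * ε := fun y hy hyz =>
    core hf hE hv hε hε1 hW hr hlam hlr free log hX hx (zero x (Or.inl hx) hxz) hy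
      (zero y (Or.inr hy) hyz)
  refine ⟨key, fun j0 h0 => ?_⟩
  have hpi : 3 < Real.pi := Real.pi_gt_three
  have hpi2 : Real.pi < 3.15 := Real.pi_lt_d2
  have hpos : 0 < Real.pi := Real.pi_pos
  set d : ℝ := 1 / lam with hd
  have hd0 : 0 < d := by positivity
  have e15 : 15 / lam = 15 * d := by rw [hd]; ring
  have e10 : 10 / lam = 10 * d := by rw [hd]; ring
  have e8 : 8 / lam = 8 * d := by rw [hd]; ring
  have epi : Real.pi / lam = Real.pi * d := by rw [hd]; ring
  rw [e8, epi] at h0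
  have h0' := abs_le.1 h0
  have hpd : Real.pi * d ≤ 3.15 * d := by gcongr
  have hpd0 : 0 < Real.pi * d := by positivity
  have hep : ε * (Real.pi * d) ≤ 1 / 100 * (3.15 * d) := by gcongr
  have hep0 : 0 < ε * (Real.pi * d) := by positivity
  obtain ⟨y, hy1, hy2, hyz⟩ := ex (x + (j0 - X / Real.pi) * (Real.pi * d) + 14 * ε * (Real.pi * d)) (by
    rw [e10, abs_le]
    constructor <;> nlinarith)
  rw [epi] at hy1
  have hy : |y - (t + v * r)| ≤ 15 / lam := by
    rw [e15, abs_le]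
    constructor <;> nlinarith
  obtain ⟨j, hj⟩ := key y hy hyz
  have hj' := abs_le.1 hj
  have hjj : j = j0 := by
    have hlamd : lam * d = 1 := by rw [hd]; field_simp
    have e1 : (y - x) * lam / Real.pi ≤ (j0 - X / Real.pi) + 14 * ε := by
      rw [div_le_iff₀ hpos]
      have e2 : y - x ≤ ((j0 - X / Real.pi) + 14 * ε) * (Real.pi * d) := by linarith
      calc (y - x) * lam ≤ (((j0 - X / Real.pi) + 14 * ε) * (Real.pi * d)) * lam := by gcongr
        _ = ((j0 - X / Real.pi) + 14 * ε) * Real.pi * (lam * d) := by ring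
        _ = _ := by rw [hlamd, mul_one]
    have e3 : (j0 - X / Real.pi) + 13 * ε - 1 ≤ (y - x) * lam / Real.pi := by
      rw [le_div_iff₀ hpos]
      have e2 : ((j0 - X / Real.pi) + 13 * ε - 1) * (Real.pi * d) ≤ y - x := by linarith
      calc ((j0 - X / Real.pi) + 13 * ε - 1) * Real.pi =
          ((j0 - X / Real.pi) + 13 * ε - 1) * Real.pi * (lam * d) := by rw [hlamd, mul_one]
        _ = (((j0 - X / Real.pi) + 13 * ε - 1) * (Real.pi * d)) * lam := by ring
        _ ≤ (y - x) * lam := by gcongr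
    have e4 : (j : ℝ) < j0 + 1 := by linarith
    have e5 : (j0 : ℝ) < j + 1 := by linarith
    have e6 : j < j0 + 1 := by exact_mod_cast e4
    have e7 : j0 < j + 1 := by exact_mod_cast e5
    omega
  subst hjj
  exact ⟨y, hy, hyz, hj⟩

theorem locp_proof : S_ELT → S_LOCP := by
  intro hE v ε T k W r lam t x hv hε hε1 hW hr hlam hlT hlr hG hx hxz
  have hf : Differentiable ℂ (FT Ph) := ker_Ph.FT_diff
  have hX : XX v T r t = ∫ w in (0 : ℝ)..(v * r),
      ((deriv (FT Ph) (((t + w : ℝ) : ℂ) - I * r) / FT Ph (((t + w : ℝ) : ℂ) - I * r)).im - lam) := by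
    unfold XX UU
    rw [hlT]
  exact loc (Z := fun x : ℝ => iteratedDeriv k (FT Ph) x = 0) hf hE hv hε hε1 hW hr hlam hlr
    hG.free hG.log hG.zero hG.ex hX hx hxz

end

end Pool.Agent.H876.GP
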